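import Pool.Agent.helper76.FF2.Spec

set_option autoImplicit false

namespace Pool.Agent.FF2

open Polynomial

theorem LDV_h1 (K : Type*) [Field K] [CharP K 2] (f : K[X]) : hasseDeriv 1 (f * f) = 0 := by
  rw [hasseDeriv_mul, Finset.Nat.sum_antidiagonal_eq_sum_range_succ_mk]
  simp only [Finset.sum_range_succ, Finset.sum_range_zero, zero_add]
  simp only [Nat.sub_zero, Nat.sub_self]
  rw [mul_comm (hasseDeriv 1 f)]
  exact CharTwo.add_self_eq_zero _

theorem LDV_h2 (K : Type*) [Field K] [CharP K 2] (f : K[X]) (hf : hasseDeriv 1 f = 0) :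
    hasseDeriv 2 (f * f) = 0 := by
  rw [hasseDeriv_mul, Finset.Nat.sum_antidiagonal_eq_sum_range_succ_mk]
  simp only [Finset.sum_range_succ, Finset.sum_range_zero, zero_add]
  simp only [Nat.sub_zero, Nat.sub_self, Nat.reduceSub, hf, mul_zero, add_zero]
  rw [mul_comm (hasseDeriv 2 f)]
  exact CharTwo.add_self_eq_zero _

theorem LDV_h3 (K : Type*) [Field K] [CharP K 2] (f : K[X]) : hasseDeriv 3 (f * f) = 0 := by
  rw [hasseDeriv_mul, Finset.Nat.sum_antidiagonal_eq_sum_range_succ_mk]
  simp only [Finset.sum_range_succ, Finset.sum_range_zero, zero_add]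
  simp only [Nat.sub_zero, Nat.sub_self, Nat.reduceSub]
  have h1 := CharTwo.add_self_eq_zero (hasseDeriv 0 f * hasseDeriv 3 f)
  have h2 := CharTwo.add_self_eq_zero (hasseDeriv 1 f * hasseDeriv 2 f)
  linear_combination h1 + h2

theorem LDV (K : Type*) [Field K] [CharP K 2] : LDV_stmt K := by
  intro A w s G b hE hA0 hA1 hw
  have h2 : (2 : K) = 0 := CharP.cast_eq_zero K 2
  have hw4 : w ^ 4 = (w * w) * (w * w) := by ring
  have k1 : hasseDeriv 1 (w ^ 4) = 0 := by rw [hw4]; exact LDV_h1 K _
  have k2 : hasseDeriv 2 (w ^ 4) = 0 := by rw [hw4]; exact LDV_h2 K _ (LDV_h1 K w)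
  have k3 : hasseDeriv 3 (w ^ 4) = 0 := by rw [hw4]; exact LDV_h3 K _
  have e0 : w.eval b ^ 4 = s.eval b * G.eval b := by
    have h := congrArg (eval b) hE
    rw [eval_add, hA0, zero_add, eval_pow, eval_mul] at h
    exact h
  have hne : s.eval b * G.eval b ≠ 0 := by
    rw [← e0]
    exact pow_ne_zero 4 hw
  have hs : s.eval b ≠ 0 := left_ne_zero_of_mul hne
  have hG : G.eval b ≠ 0 := right_ne_zero_of_mul hne
  have e1 : 0 = s.eval b * (derivative G).eval b + (derivative s).eval b * G.eval b := by
    rw [hasseDeriv_one] at k1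
    have h := congrArg (fun P => eval b (derivative P)) hE
    simp only [derivative_add, k1, add_zero, derivative_mul, eval_add, eval_mul, hA1] at h
    rw [h, add_comm]
  have e2 : (hasseDeriv 2 A).eval b = s.eval b * (hasseDeriv 2 G).eval b +
      (derivative s).eval b * (derivative G).eval b + (hasseDeriv 2 s).eval b * G.eval b := by
    have h := congrArg (fun P => eval b (hasseDeriv 2 P)) hE
    simp only [map_add, k2, add_zero, hasseDeriv_mul,
      Finset.Nat.sum_antidiagonal_eq_sum_range_succ_mk, Finset.sum_range_succ,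
      Finset.sum_range_zero, zero_add, Nat.sub_zero, Nat.sub_self, Nat.reduceSub, hasseDeriv_zero',
      hasseDeriv_one, eval_add, eval_mul] at h
    exact h
  have e3 : (hasseDeriv 3 A).eval b = s.eval b * (hasseDeriv 3 G).eval b +
      (derivative s).eval b * (hasseDeriv 2 G).eval b +
      (hasseDeriv 2 s).eval b * (derivative G).eval b + (hasseDeriv 3 s).eval b * G.eval b := by
    have h := congrArg (fun P => eval b (hasseDeriv 3 P)) hE
    simp only [map_add, k3, add_zero, hasseDeriv_mul,
      Finset.Nat.sum_antidiagonal_eq_sum_range_succ_mk, Finset.sum_range_succ,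
      Finset.sum_range_zero, zero_add, Nat.sub_zero, Nat.sub_self, Nat.reduceSub, hasseDeriv_zero',
      hasseDeriv_one, eval_add, eval_mul] at h
    exact h
  have f1 : (derivative G).eval b / G.eval b = (derivative s).eval b / s.eval b := by
    rw [div_eq_div_iff hG hs]
    linear_combination -e1 - (derivative s).eval b * G.eval b * h2
  have f2 : (hasseDeriv 2 A).eval b * (1 / w.eval b ^ 4) = (hasseDeriv 2 G).eval b / G.eval b +
      (derivative s).eval b / s.eval b * ((derivative G).eval b / G.eval b) +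
      (hasseDeriv 2 s).eval b / s.eval b := by
    rw [e0, e2]
    field_simp
  have f3 : (hasseDeriv 3 A).eval b * (1 / w.eval b ^ 4) = (hasseDeriv 3 G).eval b / G.eval b +
      (derivative s).eval b / s.eval b * ((hasseDeriv 2 G).eval b / G.eval b) +
      (hasseDeriv 2 s).eval b / s.eval b * ((derivative G).eval b / G.eval b) +
      (hasseDeriv 3 s).eval b / s.eval b := by
    rw [e0, e3]
    field_simp
  refine ⟨hG, hs, f1, ?_, ?_⟩
  · rw [f2, f1]
    linear_combination -((derivative s).eval b / s.eval b) ^ 2 * h2 -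
      (hasseDeriv 2 s).eval b / s.eval b * h2
  · rw [f3, f1]
    linear_combination -(hasseDeriv 3 s).eval b / s.eval b * h2 -
      (derivative s).eval b / s.eval b * ((hasseDeriv 2 s).eval b / s.eval b) * h2

end Pool.Agent.FF2
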